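import Mathlib
import Pool.Agent.Run7.h866.NU.Close

set_option autoImplicit false

/-!
# Non-speciality in all degrees: near-uniform vectors, and all vectors close to a uniform vector

Two classes of vectors `w` of `n` multiplicities such that for general points (one open set for all
degrees) the systems of plane curves of degree `d` with the multiplicities `w` are non-special for
EVERY `d`:
* all vectors with the entries `m` and `m + 1`, for every `n ≥ 200` and every `m ≥ 1`;
* for every `n ≥ 37` and `2 m ≥ n + 6`: all vectors with `w i ≤ m + 1` which are close to the vector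
  `(m, ..., m)`. A point costs `0` if `w i = m`, `1` if `w i = m + 1`, and `4 (m - w i) - 2` if
  `w i < m`. Let `T` be the total cost and `c = 0, 5, 2, 3` for `n ≡ 0, 1, 2, 3` modulo four. Close
  means: `T + c / 2 + 9 / 8 < 7 √n / 6` or `T + c + 2 √n / 3 + 23 / 8 ≤ n / 4`.
-/

namespace Pool.Agent.Results.MP_d3128a_ag.CloseToUniformEveryNumber

open MvPolynomial

/-- Forms of degree `d` vanishing to order at least `w i` at the points `(P i 0 : P i 1 : 1)`. -/
noncomputable def forms {n : ℕ} (P : Fin n → Fin 2 → ℂ) (d : ℕ) (w : Fin n → ℕ) :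
    Submodule ℂ (MvPolynomial (Fin 3) ℂ) :=
  homogeneousSubmodule (Fin 3) ℂ d ⊓
    Submodule.restrictScalars ℂ
      (⨅ i : Fin n, (Ideal.span {X 0 - C (P i 0) * X 2, X 1 - C (P i 1) * X 2} :
        Ideal (MvPolynomial (Fin 3) ℂ)) ^ (w i))

/-- For general points (one nonempty open set for all degrees) the systems of curves with the
multiplicities `w` are non-special in every degree. -/
def NonSpecial {n : ℕ} (w : Fin n → ℕ) : Prop :=
  ∃ F : MvPolynomial (Fin n × Fin 2) ℂ, F ≠ 0 ∧ ∀ P : Fin n → Fin 2 → ℂ,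
    MvPolynomial.eval (fun ij : Fin n × Fin 2 => P ij.1 ij.2) F ≠ 0 →
    ∀ d : ℕ, (Module.finrank ℂ ↥(forms P d w) : ℤ) - 1 =
      max (((d + 2).choose 2 : ℤ) - 1 - ∑ i, ((w i + 1).choose 2 : ℤ)) (-1)

/-- The cost of a point of multiplicity `e ≤ m + 1`. -/
def cost (m e : ℕ) : ℕ := if e < m then 4 * (m - e) - 2 else if e = m then 0 else 1

/-- `0, 5, 2, 3` for `n ≡ 0, 1, 2, 3` modulo four. -/
def spare (n : ℕ) : ℕ := if n % 4 = 1 then 5 else n % 4

theorem result :
    (∀ n m : ℕ, 200 ≤ n → 1 ≤ m → ∀ w : Fin n → ℕ, (∀ i, w i = m ∨ w i = m + 1) →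
      NonSpecial w) ∧
    ∀ n m : ℕ, 37 ≤ n → n + 6 ≤ 2 * m →
      ∀ w : Fin n → ℕ, (∀ i, w i ≤ m + 1) →
        (((∑ i, cost m (w i) : ℕ) : ℝ) + (spare n : ℝ) / 2 + 9 / 8 < 7 * Real.sqrt n / 6 ∨
          ((∑ i, cost m (w i) : ℕ) : ℝ) + spare n + 2 * Real.sqrt n / 3 + 23 / 8 ≤ (n : ℝ) / 4) →
        NonSpecial w := by
  have key : ∀ {n : ℕ} {w : Fin n → ℕ}, Pool.Agent.Run7.h866.NU.NearV w → NonSpecial w := by
    intro n w h
    obtain ⟨F, hF, hF'⟩ := Pool.Agent.Run7.h866.NU.nearV_exp h ℂ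
    refine ⟨F.map (algebraMap ℚ ℂ), Pool.Agent.H932R3.map_ne_zero_of hF, fun P hP d => ?_⟩
    rw [MvPolynomial.eval_map] at hP
    have h1 := hF' P hP d
    unfold Pool.Agent.H932R3.ExpDim at h1
    unfold forms
    rw [h1]
    have e : ∑ i, ((w i + 1).choose 2 : ℤ) = ((∑ i, (w i + 1).choose 2 : ℕ) : ℤ) := by
      push_cast
      rfl
    rw [e]
    omega
  exact ⟨fun n m hn hm w hw => key (Or.inl ⟨hn, m, hm, hw⟩),
    fun n m hn hm w hw hT => key (Or.inr ⟨m, hn, hm, hw, hT⟩)⟩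

end Pool.Agent.Results.MP_d3128a_ag.CloseToUniformEveryNumber
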